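import Mathlib

set_option autoImplicit false

namespace Pool.Agent.H.MP_65c995_pr

abbrev G := Bool × Bool × Bool × Bool
abbrev F := Bool × G × Bool

def sg (b : Bool) : ℤ := cond b (-1) 1
def chi (r g : G) : ℤ :=
  sg (r.1 && g.1) * sg (r.2.1 && g.2.1) * sg (r.2.2.1 && g.2.2.1) * sg (r.2.2.2 && g.2.2.2)
def bq (r : G) (a : F) : ℤ :=
  sg ((r.1 && r.2.1) && a.1) * sg ((r.1 && r.2.2.1) && a.2.1.1) * sg ((r.1 && r.2.2.2) && a.2.1.2.1)
    * sg ((r.2.1 && r.2.2.1) && a.2.1.2.2.1) * sg ((r.2.1 && r.2.2.2) && a.2.1.2.2.2)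
    * sg ((r.2.2.1 && r.2.2.2) && a.2.2)
def xG (g h : G) : G := (g.1 ^^ h.1, g.2.1 ^^ h.2.1, g.2.2.1 ^^ h.2.2.1, g.2.2.2 ^^ h.2.2.2)
def xF (a b : F) : F := (a.1 ^^ b.1, xG a.2.1 b.2.1, a.2.2 ^^ b.2.2)
def ph (a : F) (r : G) (c : F) : ℤ := sg c.1 * chi r c.2.1 * bq r a

lemma sg_x (r a b : Bool) : sg (r && (a ^^ b)) = sg (r && a) * sg (r && b) := by
  revert r a b; decide
lemma chi_x (r g h : G) : chi r (xG g h) = chi r g * chi r h := by
  simp only [chi, xG, sg_x]; ring
lemma bq_x (r : G) (a b : F) : bq r (xF a b) = bq r a * bq r b := by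
  simp only [bq, xF, xG, sg_x]; ring
lemma sg_abs (b : Bool) : |sg b| = 1 := by cases b <;> rfl
lemma sg_sq (b : Bool) : sg b * sg b = 1 := by cases b <;> rfl
lemma ph_abs (a : F) (r : G) (c : F) : |ph a r c| = 1 := by
  simp only [ph, chi, bq, abs_mul, sg_abs, mul_one]
lemma bq_sq (r : G) (a : F) : bq r a * bq r a = 1 := by
  rw [← abs_mul_abs_self]; simp only [bq, abs_mul, sg_abs, mul_one]
lemma xF_ne (a b : F) (h : a ≠ b) : xF a b ≠ (false, (false, false, false, false), false) := by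
  intro e
  have k : ∀ u v : Bool, (u ^^ v) = false ↔ u = v := by decide
  simp only [xF, xG, Prod.mk.injEq, k] at e
  exact h (Prod.ext e.1 (Prod.ext (Prod.ext e.2.1.1 (Prod.ext e.2.1.2.1 (Prod.ext e.2.1.2.2.1 e.2.1.2.2.2))) e.2.2))
lemma sumF {M : Type} [AddCommMonoid M] (f : F → M) :
    ∑ b, f b = ∑ p : G, (f (false, p, false) + f (false, p, true) + (f (true, p, false) + f (true, p, true))) := by
  rw [Fintype.sum_prod_type, Fintype.sum_bool, Fintype.sum_prod_type (fun y => f (true, y)),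
    Fintype.sum_prod_type (fun y => f (false, y)), ← Finset.sum_add_distrib]
  exact Finset.sum_congr rfl fun p _ => by simp only [Fintype.sum_bool]; abel
lemma cardG : Fintype.card G = 16 := by simp
lemma chi_orth : ∀ r s : G, ∑ g, chi r g * chi s g = if r = s then 16 else 0 := by decide +kernel
lemma flat : ∀ d : F, d ≠ (false, (false, false, false, false), false) → ∀ g : G,
    |∑ r, chi r g * bq r d| ≤ 8 := by decide +kernel

lemma F1 (a : F) (r : G) : ∑ c, ph a r c = 0 := by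
  simp [ph, sumF, sg]

lemma F2 (a : F) (r s : G) : ∑ c, ph a r c * ph a s c = if r = s then 64 else 0 := by
  have : ∀ c : F, ph a r c * ph a s c = bq r a * bq s a * (chi r c.2.1 * chi s c.2.1) := fun c => by
    rw [← one_mul (_ * _ * (_ * _)), ← sg_sq c.1, ph, ph]; ring
  simp only [this, sumF, Finset.sum_add_distrib, ← Finset.mul_sum, chi_orth]
  split_ifs with h
  · subst h; rw [bq_sq]; rfl
  · simp

lemma F3 {a b : F} (h : a ≠ b) (c d : F) : |∑ r, ph a r c * ph b r d| ≤ 8 := by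
  have : ∀ r : G, ph a r c * ph b r d = sg c.1 * sg d.1 * (chi r (xG c.2.1 d.2.1) * bq r (xF a b)) :=
    fun r => by rw [chi_x, bq_x, ph, ph]; ring
  simp only [this, ← Finset.mul_sum, abs_mul, sg_abs, one_mul]
  exact flat _ (xF_ne a b h) _

noncomputable def φ (a : F) (r : G) (c : F) : ℝ := ph a r c
noncomputable def η (a : F) : ℝ := sg a.2.2
noncomputable def K (a b c d : F) : ℝ := (∑ r, φ a r c * φ b r d) / 16

lemma φ_abs (a : F) (r : G) (c : F) : |φ a r c| = 1 := by
  rw [φ, ← Int.cast_abs, ph_abs]; simp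
lemma η_abs (a : F) : |η a| = 1 := by
  rw [η, ← Int.cast_abs, sg_abs]; simp
lemma η_sq (a : F) : η a * η a = 1 := by
  rw [η, ← Int.cast_mul, sg_sq]; simp
lemma φ1 (a : F) (r : G) : ∑ c, φ a r c = 0 := by
  unfold φ; exact_mod_cast F1 a r
lemma φ2 (a : F) (r s : G) : ∑ c, φ a r c * φ a s c = if r = s then 64 else 0 := by
  unfold φ; exact_mod_cast F2 a r s
lemma K_le {a b : F} (h : a ≠ b) (c d : F) : |K a b c d| ≤ 1 / 2 := by
  have : |∑ r, φ a r c * φ b r d| ≤ 8 := by unfold φ; exact_mod_cast F3 h c d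
  rw [K, abs_div]; norm_num; linarith
lemma K_le1 (a b c d : F) : |K a b c d| ≤ 1 := by
  have := Finset.abs_sum_le_sum_abs (fun r => φ a r c * φ b r d) Finset.univ
  simp only [abs_mul, φ_abs] at this
  rw [K, abs_div]; norm_num at this ⊢; linarith
lemma K_symm (a b c d : F) : K a b c d = K b a d c := by simp only [K, mul_comm]
lemma K0 (a b c : F) : ∑ d, K a b c d = 0 := by
  simp only [K, ← Finset.sum_div]
  rw [Finset.sum_comm]
  simp [← Finset.mul_sum, φ1]
lemma Kφ (a b c : F) (r : G) : ∑ d, K a b c d * φ b r d = 4 * φ a r c := by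
  simp only [K, div_mul_eq_mul_div, ← Finset.sum_div, Finset.sum_mul, mul_assoc]
  rw [Finset.sum_comm]
  simp [← Finset.mul_sum, φ2]; ring
lemma KK (a b e c f : F) : ∑ d, K a b c d * K e b f d = 4 * K a e c f := by
  have : ∀ d, K a b c d * K e b f d = (∑ r, φ e r f * (K a b c d * φ b r d)) / 16 := fun d => by
    rw [K.eq_1 e, ← mul_div_assoc, Finset.mul_sum]
    congr 1; exact Finset.sum_congr rfl fun r _ => by ring
  simp only [this, ← Finset.sum_div]
  rw [Finset.sum_comm]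
  simp only [← Finset.mul_sum, Kφ]
  rw [K, ← mul_div_assoc, Finset.mul_sum]
  congr 1; exact Finset.sum_congr rfl fun r _ => by ring

noncomputable def o (a b : F) : ℝ := if a.1 = b.1 then 0 else 1
noncomputable def U (a b : F) : ℝ := if a.1 = b.1 then 1 - (if a.2.1 = b.2.1 then η a * η b else 0) else 0
noncomputable def al (σ : ℝ) (a c b : F) : ℝ := U a b + σ * (o a b * η b * φ a b.2.1 c / 4)
noncomputable def ga (σ : ℝ) (a b : F) : ℝ := -σ * (o a b * η a / 4)
noncomputable def nn (a c e f : F) : ℝ :=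
  if a.1 = e.1 then K a e c f - (if a.2.1 = e.2.1 then η a * η e else 0)
  else (η e * φ a e.2.1 c - η a * φ e a.2.1 f) / 4

lemma s_al (σ : ℝ) (a c : F) : ∑ b, (o a b + al σ a c b) = 64 := by
  obtain ⟨s, p, t⟩ := a
  have : ∀ x : ℝ, ∑ _p : G, x = 16 * x := fun x => by simp
  rw [sumF, show (64 : ℝ) = 16 * 4 by norm_num, ← this]
  refine Finset.sum_congr rfl fun r _ => ?_
  cases s <;> by_cases h : p = r <;> simp [o, al, U, η, sg, h] <;> ring

lemma s_oo (a e : F) : ∑ b, o a b * o e b = 32 * (1 - o a e) := by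
  obtain ⟨s, p, t⟩ := a
  obtain ⟨s', p', t'⟩ := e
  cases s <;> cases s' <;> simp [sumF, o] <;> norm_num

lemma s_oa (σ : ℝ) (a e f : F) : ∑ b, o a b * al σ e f b = 32 * o a e := by
  obtain ⟨s, p, t⟩ := a
  obtain ⟨s', p', t'⟩ := e
  have : ∀ x : ℝ, ∑ _p : G, x = 16 * x := fun x => by simp
  rw [sumF, show (32 : ℝ) * _ = 16 * (2 * o (s, p, t) (s', p', t')) by ring, ← this]
  refine Finset.sum_congr rfl fun r _ => ?_
  cases s <;> cases s' <;> by_cases h : p' = r <;> simp [o, al, U, η, sg, h] <;> ring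

lemma s_aa (a c e f : F) : ∑ b, al 1 a c b * al (-1) e f b = 32 * (1 - o a e) - 2 * nn a c e f := by
  have h1 : ∀ x : ℝ, ∑ _p : G, x = 16 * x := fun x => by simp
  by_cases h : a.1 = e.1
  · have : ∑ r : G, (2 + (if a.2.1 = r then (if a.2.1 = e.2.1 then 2 * (η a * η e) else 0) else 0)
        - φ a r c * φ e r f / 8) = 32 * (1 - o a e) - 2 * nn a c e f := by
      simp only [Finset.sum_sub_distrib, Finset.sum_add_distrib, h1, Finset.sum_ite_eq, Finset.mem_univ,
        if_true, ← Finset.sum_div, o, nn, if_pos h, K]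
      split_ifs <;> ring
    rw [sumF, ← this]
    refine Finset.sum_congr rfl fun r _ => ?_
    obtain ⟨s, p, t⟩ := a
    obtain ⟨s', p', t'⟩ := e
    obtain rfl : s = s' := h
    by_cases h2 : p = r <;> by_cases h3 : p' = r <;> cases s <;>
      simp [o, al, U, η, sg, h2, h3, Ne.symm, eq_comm (a := r)] <;> ring
  · have : ∑ r : G, ((if a.2.1 = r then η a * φ e r f / 2 else 0) - (if e.2.1 = r then η e * φ a r c / 2 else 0))
        = 32 * (1 - o a e) - 2 * nn a c e f := by
      simp only [Finset.sum_sub_distrib, Finset.sum_ite_eq, Finset.mem_univ, if_true, o, nn, if_neg h]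
      ring
    rw [sumF, ← this]
    refine Finset.sum_congr rfl fun r _ => ?_
    obtain ⟨s, p, t⟩ := a
    obtain ⟨s', p', t'⟩ := e
    by_cases h2 : p = r <;> by_cases h3 : p' = r <;> cases s <;> cases s' <;>
      simp [o, al, U, η, sg, h2, h3] at h ⊢ <;> ring

noncomputable def M (σ : ℝ) (a c d b y : F) : ℝ := K a b c y * al σ a d b + ga σ a b * φ b a.2.1 y

lemma M0 (σ : ℝ) (a c d b : F) : ∑ y, M σ a c d b y = 0 := by
  simp [M, Finset.sum_add_distrib, ← Finset.sum_mul, ← Finset.mul_sum, K0, φ1]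

lemma MM (a c d e f g : F) : ∑ b, ∑ y, M 1 a c d b y * M (-1) e f g b y
    = 128 * nn a c e f - 8 * K a e c f * nn a d e g := by
  have h1 : ∀ b, ∑ y, M 1 a c d b y * M (-1) e f g b y
      = 4 * K a e c f * (al 1 a d b * al (-1) e g b) + η e * φ a e.2.1 c * (o e b * al 1 a d b)
        - η a * φ e a.2.1 f * (o a b * al (-1) e g b)
        - (if a.2.1 = e.2.1 then 4 * (η a * η e) else 0) * (o a b * o e b) := fun b => by
    have : ∀ y, M 1 a c d b y * M (-1) e f g b y
        = (al 1 a d b * al (-1) e g b) * (K a b c y * K e b f y)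
          + (al 1 a d b * ga (-1) e b) * (K a b c y * φ b e.2.1 y)
          + (ga 1 a b * al (-1) e g b) * (K e b f y * φ b a.2.1 y)
          + (ga 1 a b * ga (-1) e b) * (φ b a.2.1 y * φ b e.2.1 y) := fun y => by simp only [M]; ring
    simp only [this, Finset.sum_add_distrib, ← Finset.mul_sum, KK, Kφ, φ2, ga]
    split_ifs <;> ring
  simp only [h1, Finset.sum_add_distrib, Finset.sum_sub_distrib, ← Finset.mul_sum, s_aa, s_oa, s_oo]
  simp only [nn.eq_1 a c, o, eq_comm (a := e.1)]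
  split_ifs <;> ring

lemma L0 (a c e f : F) : ∑ b, (o a b + al 1 a c b) * (o e b + al (-1) e f b) = 64 - 2 * nn a c e f := by
  simp only [add_mul, mul_add, Finset.sum_add_distrib, mul_comm (al 1 a c _) (o e _), s_aa, s_oa, s_oo]
  simp only [o, eq_comm (a := e.1)]
  ring

lemma nn_le (a c e f : F) : |nn a c e f| ≤ 2 := by
  have h1 : |η a * η e| = 1 := by rw [abs_mul, η_abs, η_abs, mul_one]
  have h2 : |η e * φ a e.2.1 c| = 1 := by rw [abs_mul, η_abs, φ_abs, mul_one]
  have h3 : |η a * φ e a.2.1 f| = 1 := by rw [abs_mul, η_abs, φ_abs, mul_one]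
  have h4 := abs_le.1 (K_le1 a e c f)
  have := abs_le.1 h1.le
  have := abs_le.1 h2.le
  have := abs_le.1 h3.le
  unfold nn
  split_ifs <;> rw [abs_le] <;> constructor <;> linarith

end Pool.Agent.H.MP_65c995_pr
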