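import Mathlib

set_option autoImplicit false

namespace Pool.Agent.H.MP_65c995_pr

open MeasureTheory ProbabilityTheory Filter Topology Function
open scoped ENNReal

lemma upd_mp {ι E : Type} [DecidableEq ι] [MeasurableSpace E] (π : Measure E) [IsProbabilityMeasure π]
    (j : ι) : MeasurePreserving (fun z : (ι → E) × E => update z.1 j z.2)
      ((Measure.infinitePi fun _ : ι => π).prod π) (Measure.infinitePi fun _ : ι => π) := by
  have hm : Measurable (fun z : (ι → E) × E => update z.1 j z.2) := measurable_update'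
  refine ⟨hm, Measure.eq_infinitePi _ fun s t ht => ?_⟩
  rw [Measure.map_apply hm (.pi s.countable_toSet fun _ _ => ht _)]
  by_cases hj : j ∈ s
  · have : (fun z : (ι → E) × E => update z.1 j z.2) ⁻¹' (s : Set ι).pi t
        = ((s.erase j : Finset ι) : Set ι).pi t ×ˢ t j := by
      ext ⟨w, y⟩
      simp only [Set.mem_preimage, Set.mem_pi, Finset.mem_coe, Set.mem_prod, Finset.mem_erase]
      constructor
      · intro h
        refine ⟨fun i hi => ?_, by simpa using h j hj⟩
        have := h i hi.2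
        rwa [update_of_ne hi.1] at this
      · rintro ⟨h1, h2⟩ i hi
        by_cases e : i = j
        · subst e; simpa using h2
        · rw [update_of_ne e]; exact h1 i ⟨e, hi⟩
    rw [this, Measure.prod_prod, Measure.infinitePi_pi _ fun i _ => ht i, Finset.prod_erase_mul _ _ hj]
  · have : (fun z : (ι → E) × E => update z.1 j z.2) ⁻¹' (s : Set ι).pi t
        = (s : Set ι).pi t ×ˢ Set.univ := by
      ext ⟨w, y⟩
      simp only [Set.mem_preimage, Set.mem_pi, Finset.mem_coe, Set.mem_prod, Set.mem_univ, and_true]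
      refine forall₂_congr fun i hi => ?_
      rw [update_of_ne (by rintro rfl; exact hj hi)]
    rw [this, Measure.prod_prod, Measure.infinitePi_pi _ fun i _ => ht i]; simp

lemma upd_l {ι E : Type} [DecidableEq ι] [MeasurableSpace E] (π : Measure E) [IsProbabilityMeasure π]
    (j : ι) {f : (ι → E) → ℝ≥0∞} (hf : Measurable f) :
    ∫⁻ w, f w ∂(Measure.infinitePi fun _ : ι => π)
      = ∫⁻ w, ∫⁻ y, f (update w j y) ∂π ∂(Measure.infinitePi fun _ : ι => π) := by
  rw [← (upd_mp π j).lintegral_comp hf]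
  exact lintegral_prod _ (hf.comp (upd_mp π j).measurable).aemeasurable

lemma upd_i {ι E : Type} [DecidableEq ι] [MeasurableSpace E] (π : Measure E) [IsProbabilityMeasure π]
    (j : ι) {f : (ι → E) → ℝ} (hf : Integrable f (Measure.infinitePi fun _ : ι => π)) :
    ∫ w, f w ∂(Measure.infinitePi fun _ : ι => π)
      = ∫ w, ∫ y, f (update w j y) ∂π ∂(Measure.infinitePi fun _ : ι => π) := by
  have h := (upd_mp π j).integrable_comp_of_integrable hf
  refine Eq.trans ?_ (integral_prod _ h)
  conv_lhs => rw [← (upd_mp π j).map_eq]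
  rw [integral_map (upd_mp π j).measurable.aemeasurable (by rw [(upd_mp π j).map_eq]; exact hf.1)]
  rfl

variable {S : Type} [MeasurableSpace S]

def Dep (f : (ℤ → S) → ℝ≥0∞) (l : ℤ) (n : ℕ) : Prop :=
  ∀ w w', (∀ i, l ≤ i → i ≤ l + n → w i = w' i) → f w = f w'

noncomputable def D (q : S → S → ℝ≥0∞) (l : ℤ) (n : ℕ) (w : ℤ → S) : ℝ≥0∞ :=
  ∏ i ∈ Finset.range n, q (w (l + i)) (w (l + i + 1))

lemma D_meas {q : S → S → ℝ≥0∞} (hq : Measurable (uncurry q)) (l : ℤ) (n : ℕ) : Measurable (D q l n) :=
  Finset.measurable_prod _ fun i _ =>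
    Measurable.comp (f := fun a : ℤ → S => (a (l + i), a (l + i + 1))) hq (by fun_prop)

omit [MeasurableSpace S] in
lemma D_dep (q : S → S → ℝ≥0∞) (l : ℤ) (n : ℕ) : Dep (D q l n) l n := fun w w' h =>
  Finset.prod_congr rfl fun i hi => by
    have := Finset.mem_range.1 hi
    rw [h _ (by omega) (by omega), h _ (by omega) (by omega)]

omit [MeasurableSpace S] in
lemma Dep.upd {f : (ℤ → S) → ℝ≥0∞} {l : ℤ} {n : ℕ} (h : Dep f l n) (w : ℤ → S) {j : ℤ}
    (hj : j < l ∨ l + n < j) (y : S) : f (update w j y) = f w :=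
  h _ _ fun i h1 h2 => update_of_ne (by omega) _ _

omit [MeasurableSpace S] in
lemma Dep.mono {f : (ℤ → S) → ℝ≥0∞} {l l' : ℤ} {n n' : ℕ} (h : Dep f l n) (h1 : l' ≤ l)
    (h2 : l + n ≤ l' + n') : Dep f l' n' := fun w w' e => h w w' fun i i1 i2 => e i (by omega) (by omega)

section
variable (π : Measure S) [IsProbabilityMeasure π] {q : S → S → ℝ≥0∞} (hq : Measurable (uncurry q))
include hq

lemma extR {f : (ℤ → S) → ℝ≥0∞} (hf : Measurable f) {l : ℤ} {n : ℕ} (h : Dep f l n)
    {g : S → ℝ≥0∞} (hg : Measurable g) :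
    ∫⁻ w, f w * g (w (l + n + 1)) * D q l (n + 1) w ∂(Measure.infinitePi fun _ : ℤ => π)
      = ∫⁻ w, f w * (∫⁻ y, g y * q (w (l + n)) y ∂π) * D q l n w ∂(Measure.infinitePi fun _ : ℤ => π) := by
  refine (upd_l π (l + n + 1) ((hf.mul (hg.comp (measurable_pi_apply _))).mul (D_meas hq _ _))).trans ?_
  refine lintegral_congr fun w => ?_
  simp only [Pi.mul_apply, comp]
  have hm : Measurable fun y => g y * q (w (l + n)) y := hg.mul (hq.comp measurable_prodMk_left)
  rw [mul_right_comm, ← lintegral_const_mul _ hm]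
  refine lintegral_congr fun y => ?_
  have e := (D_dep q l n).upd w (j := l + n + 1) (by omega) y
  rw [h.upd w (by omega), D, Finset.prod_range_succ, ← D, e, update_self, update_of_ne (by omega)]
  ring

lemma extL (hc : ∀ y, ∫⁻ x, q x y ∂π = 1) {f : (ℤ → S) → ℝ≥0∞} (hf : Measurable f) {l : ℤ} {n : ℕ}
    (h : Dep f (l + 1) n) :
    ∫⁻ w, f w * D q l (n + 1) w ∂(Measure.infinitePi fun _ : ℤ => π)
      = ∫⁻ w, f w * D q (l + 1) n w ∂(Measure.infinitePi fun _ : ℤ => π) := by
  refine (upd_l π l (hf.mul (D_meas hq _ _))).trans ?_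
  refine lintegral_congr fun w => ?_
  simp only [Pi.mul_apply]
  have hm : Measurable fun x => q x (w (l + 1)) := hq.comp measurable_prodMk_right
  rw [← mul_one (f w * _), ← hc (w (l + 1)), ← lintegral_const_mul _ hm]
  refine lintegral_congr fun y => ?_
  have e := (D_dep q (l + 1) n).upd w (j := l) (by omega) y
  rw [h.upd w (by omega), D, Finset.prod_range_succ', ← e, D]
  simp only [Nat.cast_zero, add_zero, update_self, Nat.cast_add, Nat.cast_one]
  rw [update_of_ne (by omega), mul_assoc]
  congr 2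
  refine Finset.prod_congr rfl fun i _ => ?_
  rw [show l + (i + 1) = l + 1 + i by ring]

lemma ext (hr : ∀ x, ∫⁻ y, q x y ∂π = 1) (hc : ∀ y, ∫⁻ x, q x y ∂π = 1) {f : (ℤ → S) → ℝ≥0∞}
    (hf : Measurable f) {l : ℤ} {n : ℕ} (h : Dep f l n) (a b : ℕ) :
    ∫⁻ w, f w * D q (l - a) (n + b + a) w ∂(Measure.infinitePi fun _ : ℤ => π)
      = ∫⁻ w, f w * D q l n w ∂(Measure.infinitePi fun _ : ℤ => π) := by
  induction a with
  | zero =>
    induction b with
    | zero => simp
    | succ b ih =>
      have := extR π hq hf (h.mono le_rfl (n' := n + b) (by omega)) (g := fun _ => 1) measurable_const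
      simp only [mul_one, one_mul, hr] at this
      simpa [← add_assoc, this] using ih
  | succ a ih =>
    rw [← add_assoc, extL π hq hc hf (h.mono (by omega) (by omega)), ← ih]
    rw [show l - (a + 1 : ℕ) + 1 = l - a by omega]

end

variable [MetricSpace S] [CompactSpace S] [BorelSpace S]

theorem exists_mu (π : Measure S) [IsProbabilityMeasure π] {q : S → S → ℝ≥0∞} (hq : Measurable (uncurry q))
    (hr : ∀ x, ∫⁻ y, q x y ∂π = 1) (hc : ∀ y, ∫⁻ x, q x y ∂π = 1) :
    ∃ μ : Measure (ℤ → S), IsProbabilityMeasure μ ∧ ∀ f : (ℤ → S) → ℝ≥0∞, Measurable f → ∀ l n, Dep f l n →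
      ∫⁻ w, f w ∂μ = ∫⁻ w, f w * D q l n w ∂(Measure.infinitePi fun _ : ℤ => π) := by
  set ν := Measure.infinitePi fun _ : ℤ => π
  have key : ∀ (N : ℕ) (f : (ℤ → S) → ℝ≥0∞), Measurable f → ∀ l n, Dep f l n → -(N : ℤ) ≤ l → l + n ≤ N →
      ∫⁻ w, f w ∂(ν.withDensity (D q (-N) (2 * N))) = ∫⁻ w, f w * D q l n w ∂ν := by
    intro N f hf l n h h1 h2
    rw [lintegral_withDensity_eq_lintegral_mul _ (D_meas hq _ _) hf,
      ← ext π hq hr hc hf h (l + N).toNat (N - l - n).toNat,
      show l - ((l + N).toNat : ℕ) = -N by omega, show n + (N - l - n).toNat + (l + N).toNat = 2 * N by omega]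
    exact lintegral_congr fun w => mul_comm _ _
  have hp : ∀ N : ℕ, IsProbabilityMeasure (ν.withDensity (D q (-N) (2 * N))) := fun N => ⟨by
    have := key N (fun _ => 1) measurable_const 0 0 (fun _ _ _ => rfl) (by omega) (by omega)
    simpa [D] using this⟩
  let μs : ℕ → ProbabilityMeasure (ℤ → S) := fun N => ⟨_, hp N⟩
  obtain ⟨μ, -, hμ⟩ := isCompact_univ.ultrafilter_le_nhds ((hyperfilter ℕ).map μs) (by simp)
  refine ⟨μ, inferInstance, fun f hf l n h => ?_⟩
  obtain ⟨x0⟩ := nonempty_of_isProbabilityMeasure π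
  let R : (ℤ → S) → (ℤ → S) := fun w i => if l ≤ i ∧ i ≤ l + n then w i else x0
  have Rc : Continuous R := continuous_pi fun i => by
    by_cases hi : l ≤ i ∧ i ≤ l + n
    · simp only [R, if_pos hi]; fun_prop
    · simp only [R, if_neg hi]; fun_prop
  have h1 : Tendsto (fun N => (μs N).map Rc.measurable.aemeasurable) (hyperfilter ℕ)
      (𝓝 (μ.map Rc.measurable.aemeasurable)) :=
    ProbabilityMeasure.tendsto_map_of_tendsto_of_continuous _ _ hμ Rc
  let M := l.natAbs + n
  have hR : ∀ g : (ℤ → S) → ℝ≥0∞, Dep (fun w => g (R w)) l n := fun g w w' e => by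
    have : R w = R w' := funext fun i => by
      by_cases hi : l ≤ i ∧ i ≤ l + n
      · simp only [R, if_pos hi, e i hi.1 hi.2]
      · simp only [R, if_neg hi]
    simp only [this]
  have h2 : ∀ N, M ≤ N → (μs N).map Rc.measurable.aemeasurable = (μs M).map Rc.measurable.aemeasurable := by
    intro N hN
    apply Subtype.ext
    refine Measure.ext fun s hs => ?_
    change ((ν.withDensity _).map R) s = ((ν.withDensity _).map R) s
    have hi : Measurable (s.indicator (1 : (ℤ → S) → ℝ≥0∞)) := measurable_one.indicator hs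
    rw [← lintegral_indicator_one hs, ← lintegral_indicator_one hs, lintegral_map hi Rc.measurable,
      lintegral_map hi Rc.measurable]
    exact (key N _ (hi.comp Rc.measurable) l n (hR _) (by omega) (by omega)).trans
      (key M _ (hi.comp Rc.measurable) l n (hR _) (by omega) (by omega)).symm
  have h3 : μ.map Rc.measurable.aemeasurable = (μs M).map Rc.measurable.aemeasurable := by
    refine tendsto_nhds_unique h1 (tendsto_const_nhds.congr' ?_)
    have hle : (hyperfilter ℕ : Filter ℕ) ≤ atTop := Nat.hyperfilter_le_atTop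
    filter_upwards [hle (eventually_ge_atTop M)] with N hN
    exact (h2 N hN).symm
  have h4 : (μ : Measure (ℤ → S)).map R = (ν.withDensity (D q (-M) (2 * M))).map R := congrArg Subtype.val h3
  have e : ∀ w, f (R w) = f w := fun w => h _ _ fun i i1 i2 => if_pos ⟨i1, i2⟩
  rw [← key M f hf l n h (by omega) (by omega)]
  have := congrArg (fun m => ∫⁻ w, f w ∂m) h4
  simpa only [lintegral_map hf Rc.measurable, e] using this

omit [MetricSpace S] [CompactSpace S] [BorelSpace S] in
lemma shift_nu (π : Measure S) [IsProbabilityMeasure π] (k : ℤ) :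
    (Measure.infinitePi fun _ : ℤ => π).map (fun (w : ℤ → S) i => w (i + k))
      = Measure.infinitePi fun _ : ℤ => π := by
  refine Measure.eq_infinitePi _ fun s t ht => ?_
  rw [Measure.map_apply (by fun_prop) (.pi s.countable_toSet fun _ _ => ht _)]
  have : (fun (w : ℤ → S) i => w (i + k)) ⁻¹' (s : Set ℤ).pi t
      = ((s.map (Equiv.addRight k).toEmbedding : Finset ℤ) : Set ℤ).pi fun i => t (i - k) := by
    ext w
    simp only [Set.mem_preimage, Set.mem_pi, Finset.mem_coe, Finset.mem_map, Equiv.coe_toEmbedding,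
      Equiv.coe_addRight]
    exact ⟨by rintro h _ ⟨i, hi, rfl⟩; simpa using h i hi, fun h i hi => by simpa using h _ ⟨i, hi, rfl⟩⟩
  rw [this, Measure.infinitePi_pi _ fun i _ => ht _]; simp

def PM (S : Type) [MeasurableSpace S] (V : ℤ → Prop) : MeasurableSpace (ℤ → S) :=
  ⨆ (i : ℤ) (_ : V i), MeasurableSpace.comap (fun w : ℤ → S => w i) inferInstance

omit [MetricSpace S] [CompactSpace S] [BorelSpace S] in
lemma ext_pi (V : ℤ → Prop) (μ μ' : Measure (ℤ → S)) [IsFiniteMeasure μ]
    (h : ∀ s, MeasurableSet s → ∀ l (n : ℕ), V (l + n) → Dep (s.indicator 1) l n → μ s = μ' s)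
    (h0 : μ Set.univ = μ' Set.univ) : ∀ s, MeasurableSet[PM S V] s → μ s = μ' s := by
  have hle : PM S V ≤ MeasurableSpace.pi := iSup₂_le fun i _ => (measurable_pi_apply i).comap_le
  let C : Set (Set (ℤ → S)) := {s | MeasurableSet[PM S V] s ∧ ∃ l, ∃ n : ℕ, V (l + n) ∧ Dep (s.indicator 1) l n}
  have hC : IsPiSystem C := by
    rintro s ⟨s1, l, n, s2, s3⟩ t ⟨t1, l', n', t2, t3⟩ -
    refine ⟨s1.inter t1, min l l', (max (l + n) (l' + n') - min l l').toNat, ?_, fun w w' e => ?_⟩
    · rw [show min l l' + ((max (l + n) (l' + n') - min l l').toNat : ℕ) = max (l + n) (l' + n') by omega]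
      rcases max_choice (l + n) (l' + n') with e | e <;> rwa [e]
    · rw [Set.inter_indicator_one, Pi.mul_apply, Pi.mul_apply, s3 w w' fun i _ _ => e i (by omega) (by omega),
        t3 w w' fun i _ _ => e i (by omega) (by omega)]
  have hg : PM S V = MeasurableSpace.generateFrom C := by
    refine le_antisymm (iSup₂_le fun i hi => ?_) (MeasurableSpace.generateFrom_le fun s hs => hs.1)
    rintro _ ⟨A, hA, rfl⟩
    refine MeasurableSpace.measurableSet_generateFrom ⟨?_, i, 0, by simpa using hi, fun w w' e => ?_⟩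
    · exact le_iSup₂ (f := fun (i : ℤ) (_ : V i) =>
        MeasurableSpace.comap (fun w : ℤ → S => w i) inferInstance) i hi _ ⟨A, hA, rfl⟩
    · have := e i le_rfl (by omega)
      by_cases hw : w i ∈ A
      · simp [hw, this ▸ hw]
      · simp [hw, this ▸ hw]
  intro s hs
  induction s, hs using MeasurableSpace.induction_on_inter hg hC with
  | empty => simp
  | basic t ht => obtain ⟨t1, l, n, t2, t3⟩ := ht; exact h t (hle _ t1) l n t2 t3
  | compl t ht ih =>
    rw [measure_compl (hle _ ht) (measure_ne_top _ _), measure_compl (hle _ ht) (ih ▸ measure_ne_top _ _), ih, h0]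
  | iUnion f hd hf ih =>
    rw [measure_iUnion hd fun i => hle _ (hf i), measure_iUnion hd fun i => hle _ (hf i)]
    exact tsum_congr ih

theorem chain (π : Measure S) [IsProbabilityMeasure π] {q : S → S → ℝ≥0∞} (hq : Measurable (uncurry q))
    (hr : ∀ x, ∫⁻ y, q x y ∂π = 1) (hc : ∀ y, ∫⁻ x, q x y ∂π = 1)
    (h2 : ∀ x z, ∫⁻ y, q x y * q y z ∂π = 1) (ε : ℝ) (hε : ∀ x y, dist x y < ε → q x y = 0) :
    ∃ μ : Measure (ℤ → S), IsProbabilityMeasure μ ∧
      (∀ n : ℤ, μ.map (fun w (i : ℤ) => w (i + n)) = μ.map (fun w (i : ℤ) => w i)) ∧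
      (∀ (n : ℤ) (A : Set S), MeasurableSet A →
        condExp (⨆ (m : ℤ) (_ : m ≤ n), MeasurableSpace.comap (fun w : ℤ → S => w m) inferInstance) μ
          (Set.indicator ((fun w : ℤ → S => w (n + 1)) ⁻¹' A) (fun _ => (1 : ℝ)))
        =ᵐ[μ] condExp (MeasurableSpace.comap (fun w : ℤ → S => w n) inferInstance) μ
          (Set.indicator ((fun w : ℤ → S => w (n + 1)) ⁻¹' A) (fun _ => (1 : ℝ)))) ∧
      IndepFun (fun w : ℤ → S => w 0) (fun w : ℤ → S => w 2) μ ∧ ∀ᵐ w ∂μ, ε ≤ dist (w 0) (w 1) := by
  obtain ⟨μ, hp, hμ⟩ := exists_mu π hq hr hc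
  set ν := Measure.infinitePi fun _ : ℤ => π with hν
  refine ⟨μ, hp, fun k => ?_, fun n A hA => ?_, ?_, ?_⟩
  · have hs : Measurable (fun (w : ℤ → S) i => w (i + k)) := by fun_prop
    rw [show (fun (w : ℤ → S) (i : ℤ) => w i) = id from rfl, Measure.map_id]
    refine Measure.ext fun s ms => ext_pi (fun _ => True) _ _ ?_ (by simp [Measure.map_apply hs]) s
      ((iSup_le fun i => le_iSup₂_of_le i trivial le_rfl : MeasurableSpace.pi ≤ PM S fun _ => True) s ms)
    intro s ms l n _ h
    have hi : Measurable (s.indicator (1 : (ℤ → S) → ℝ≥0∞)) := measurable_one.indicator ms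
    rw [← lintegral_indicator_one ms, ← lintegral_indicator_one ms, lintegral_map hi hs, hμ _ hi l n h]
    refine (hμ _ (hi.comp hs) (l + k) n fun w w' e => h _ _ fun i _ _ => e _ (by omega) (by omega)).trans ?_
    conv_rhs => rw [hν, ← shift_nu π k]
    refine Eq.trans ?_ (lintegral_map (hi.mul (D_meas hq l n)) hs).symm
    refine lintegral_congr fun w => ?_
    simp only [D, Pi.mul_apply, comp]
    congr 1
    exact Finset.prod_congr rfl fun i _ => by congr 2 <;> ring
  · let H : S → ℝ≥0∞ := fun x => ∫⁻ y, A.indicator 1 y * q x y ∂π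
    have hi : Measurable (A.indicator (1 : S → ℝ≥0∞)) := measurable_one.indicator hA
    have Hm : Measurable H := Measurable.lintegral_prod_right ((hi.comp measurable_snd).mul hq)
    have H1 : ∀ x, H x ≤ 1 := fun x => hr x ▸ lintegral_mono fun y =>
      mul_le_of_le_one_left' (Set.indicator_le_self' (by simp) y)
    have mB : MeasurableSet ((fun w : ℤ → S => w (n + 1)) ⁻¹' A) := measurable_pi_apply _ hA
    have Hn : Measurable fun w : ℤ → S => H (w n) := Hm.comp (measurable_pi_apply n)
    have k0 : ∀ s, MeasurableSet s → ∀ l (j : ℕ), l + j = n → Dep (s.indicator 1) l j →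
        μ.restrict ((fun w : ℤ → S => w (n + 1)) ⁻¹' A) s = μ.withDensity (fun w => H (w n)) s := by
      intro s ms l j e h
      have hs : Measurable (s.indicator (1 : (ℤ → S) → ℝ≥0∞)) := measurable_one.indicator ms
      have := extR π hq hs h hi
      rw [e] at this
      rw [Measure.restrict_apply ms, withDensity_apply _ ms, ← lintegral_indicator ms,
        ← lintegral_indicator_one (ms.inter mB), Set.inter_indicator_one]
      refine (hμ _ (hs.mul (hi.comp (measurable_pi_apply (n + 1)))) l (j + 1) fun w w' e' => ?_).trans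
        (this.trans ((hμ _ (hs.mul Hn) l j fun w w' e' => ?_).symm.trans (lintegral_congr fun w => ?_)))
      · simp only [Pi.mul_apply, comp]
        rw [h w w' fun i _ _ => e' i (by omega) (by omega), e' (n + 1) (by omega) (by omega)]
      · simp only [Pi.mul_apply]
        rw [h w w' e', e' n (by omega) (by omega)]
      · by_cases hw : w ∈ s <;> simp [hw]
    have k1 := ext_pi (fun m => m ≤ n)
      (μ.restrict ((fun w : ℤ → S => w (n + 1)) ⁻¹' A)) (μ.withDensity fun w => H (w n))
      (fun s ms l j e h => k0 s ms l (n - l).toNat (by omega) (h.mono le_rfl (by omega)))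
      (k0 _ .univ n 0 (by simp) fun _ _ _ => rfl)
    have k2 : ∀ m : MeasurableSpace (ℤ → S), MeasurableSpace.comap (fun w : ℤ → S => w n) inferInstance ≤ m →
        m ≤ (⨆ (m : ℤ) (_ : m ≤ n), MeasurableSpace.comap (fun w : ℤ → S => w m) inferInstance) →
        (fun w => (H (w n)).toReal) =ᵐ[μ]
          condExp m μ (Set.indicator ((fun w : ℤ → S => w (n + 1)) ⁻¹' A) (fun _ => (1 : ℝ))) := by
      intro m m1 m2
      have hle : m ≤ MeasurableSpace.pi := m2.trans (iSup₂_le fun i _ => (measurable_pi_apply i).comap_le)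
      refine ae_eq_condExp_of_forall_setIntegral_eq hle ((integrable_const _).indicator mB)
        (fun s _ _ => Integrable.integrableOn ?_) (fun s ms _ => ?_) ?_
      · refine Integrable.of_bound Hn.ennreal_toReal.aestronglyMeasurable 1 (.of_forall fun w => ?_)
        rw [Real.norm_of_nonneg ENNReal.toReal_nonneg]
        exact ENNReal.toReal_le_of_le_ofReal zero_le_one (by simpa using H1 _)
      · rw [integral_toReal Hn.aemeasurable (.of_forall fun w => (H1 _).trans_lt ENNReal.one_lt_top),
          ← withDensity_apply _ (hle _ ms), ← k1 s (m2 _ ms), integral_indicator mB]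
        simp [Measure.real, Measure.restrict_apply (hle _ ms), Measure.restrict_apply mB, Set.inter_comm]
      · exact ((Hm.comp (measurable_iff_comap_le.2 m1)).ennreal_toReal).stronglyMeasurable.aestronglyMeasurable
    have l1 := le_iSup₂ (f := fun (i : ℤ) (_ : i ≤ n) =>
      MeasurableSpace.comap (fun w : ℤ → S => w i) inferInstance) n le_rfl
    exact (k2 _ l1 le_rfl).symm.trans (k2 _ le_rfl l1)
  · have key : ∀ A B : Set S, MeasurableSet A → MeasurableSet B →
        μ ((fun w : ℤ → S => w 0) ⁻¹' A ∩ (fun w : ℤ → S => w 2) ⁻¹' B) = π A * π B := by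
      intro A B hA hB
      have ms : MeasurableSet ((fun w : ℤ → S => w 0) ⁻¹' A ∩ (fun w : ℤ → S => w 2) ⁻¹' B) :=
        (measurable_pi_apply 0 hA).inter (measurable_pi_apply 2 hB)
      have hs := (measurable_one (α := ℝ≥0∞)).indicator ms
      have hd : ∀ w w' : ℤ → S, w 0 = w' 0 → w 2 = w' 2 →
          ((fun w : ℤ → S => w 0) ⁻¹' A ∩ (fun w : ℤ → S => w 2) ⁻¹' B).indicator (1 : (ℤ → S) → ℝ≥0∞) w
          = ((fun w : ℤ → S => w 0) ⁻¹' A ∩ (fun w : ℤ → S => w 2) ⁻¹' B).indicator 1 w' := by
        intro w w' e1 e2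
        by_cases hw : w 0 ∈ A ∧ w 2 ∈ B
        · simp [hw, e1 ▸ e2 ▸ hw]
        · exact (Set.indicator_of_notMem (a := w) hw _).trans
            (Set.indicator_of_notMem (a := w') (e1 ▸ e2 ▸ hw : ¬ (w' 0 ∈ A ∧ w' 2 ∈ B)) _).symm
      rw [← lintegral_indicator_one ms,
        hμ _ hs 0 2 fun w w' e => hd _ _ (e 0 (by omega) (by omega)) (e 2 (by omega) (by omega))]
      refine (upd_l π 1 (hs.mul (D_meas hq 0 2))).trans ?_
      have e3 : ν ((fun w : ℤ → S => w 0) ⁻¹' A ∩ (fun w : ℤ → S => w 2) ⁻¹' B) = π A * π B := by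
        have := Measure.infinitePi_pi (fun _ : ℤ => π) (s := {0, 2}) (t := fun i => if i = 0 then A else B)
          fun i _ => by split_ifs <;> assumption
        rw [Finset.prod_pair (by omega)] at this
        simp only [if_true, show ¬ (2 : ℤ) = 0 by omega, if_false] at this
        rw [← this]; congr 1; ext w; simp
      rw [← e3, ← lintegral_indicator_one ms]
      refine lintegral_congr fun w => ?_
      have hm : Measurable fun y => q (w 0) y * q y (w 2) :=
        (hq.comp measurable_prodMk_left).mul (hq.comp measurable_prodMk_right)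
      rw [← mul_one (Set.indicator _ _ w), ← h2 (w 0) (w 2), ← lintegral_const_mul _ hm]
      refine lintegral_congr fun y => ?_
      rw [Pi.mul_apply, hd _ w (update_of_ne (by omega) _ _) (update_of_ne (by omega) _ _)]
      simp [D, Finset.prod_range_succ, show (1 : ℤ) + 1 = 2 from rfl]
    rw [indepFun_iff_measure_inter_preimage_eq_mul]
    intro A B hA hB
    have a := key A _ hA .univ
    have b := key _ B .univ hB
    simp only [Set.preimage_univ, Set.inter_univ, Set.univ_inter, measure_univ, mul_one, one_mul] at a b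
    rw [key A B hA hB, a, b]
  · have ms : MeasurableSet {w : ℤ → S | ¬ ε ≤ dist (w 0) (w 1)} :=
      (isClosed_le continuous_const ((continuous_apply 0).dist (continuous_apply 1))).measurableSet.compl
    rw [ae_iff, ← lintegral_indicator_one ms, hμ _ (measurable_one.indicator ms) 0 1 fun w w' e => by
      simp only [Set.indicator, Set.mem_setOf_eq, e 0 (by omega) (by omega), e 1 (by omega) (by omega),
        Pi.one_apply]]
    refine (lintegral_congr fun w => ?_).trans lintegral_zero
    by_cases hw : ε ≤ dist (w 0) (w 1)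
    · simp [hw]
    · simp [D, hε _ _ (not_le.1 hw)]

end Pool.Agent.H.MP_65c995_pr
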