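import Pool.Agent.H.MP_65c995_pr.A
import Pool.Agent.H.MP_65c995_pr.C

set_option autoImplicit false

namespace Pool.Agent.H.MP_65c995_pr

open MeasureTheory ProbabilityTheory Filter Topology Function

instance : BorelSpace G := Prod.borelSpace
instance : BorelSpace F := Prod.borelSpace
abbrev S := ℕ → F
noncomputable def π : Measure S := Measure.infinitePi fun _ => uniformOn Set.univ
instance : IsProbabilityMeasure π := by unfold π; infer_instance

lemma int_u (f : F → ℝ) : ∫ c, f c ∂(uniformOn Set.univ) = (∑ c, f c) / 64 := by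
  rw [integral_fintype .of_finite, Finset.sum_div]
  refine Finset.sum_congr rfl fun c _ => ?_
  rw [Measure.real, uniformOn_univ]
  simp; ring

lemma ci {f : S → ℝ} (hf : Continuous f) : Integrable f π :=
  integrableOn_univ.1 (hf.continuousOn.integrableOn_compact isCompact_univ)

lemma upd {f : S → ℝ} (hf : Continuous f) (j : ℕ) :
    ∫ y, f y ∂π = ∫ y, (∑ c, f (update y j c)) / 64 ∂π := by
  have := upd_i (uniformOn Set.univ) j (ci hf)
  simp only [int_u] at this
  exact this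

noncomputable def Λ (n : ℕ) (x y : S) : ℝ := ∏ i ∈ Finset.range n, K (x 0) (y 0) (x (i + 1)) (y (i + 1))
noncomputable def L (σ : ℝ) : ℕ → S → S → ℝ
  | 0, x, y => o (x 0) (y 0) + al σ (x 0) (x 1) (y 0)
  | n + 1, x, y => Λ n x y * M σ (x 0) (x (n + 1)) (x (n + 2)) (y 0) (y (n + 1))
noncomputable def Q (σ : ℝ) (N : ℕ) (x y : S) : ℝ := ∑ n ∈ Finset.range (N + 1), L σ n x y
noncomputable def P (σ : ℝ) (x y : S) : ℝ := ∑' n, L σ n x y

lemma c5 (g : F → F → F → F → F → ℝ) (i j k l m : ℕ) :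
    Continuous fun z : S × S => g (z.1 i) (z.1 j) (z.1 k) (z.2 l) (z.2 m) :=
  (continuous_of_discreteTopology (f := fun t : F × F × F × F × F => g t.1 t.2.1 t.2.2.1 t.2.2.2.1 t.2.2.2.2)).comp
    (by fun_prop : Continuous fun z : S × S => (z.1 i, z.1 j, z.1 k, z.2 l, z.2 m))

lemma cΛ (n : ℕ) : Continuous fun z : S × S => Λ n z.1 z.2 :=
  continuous_finsetProd _ fun i _ => c5 (fun a c _ b d => K a b c d) 0 (i + 1) 0 0 (i + 1)

lemma cL (σ : ℝ) (n : ℕ) : Continuous fun z : S × S => L σ n z.1 z.2 := by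
  cases n with
  | zero => exact c5 (fun a c _ b _ => o a b + al σ a c b) 0 1 0 0 0
  | succ n => exact (cΛ n).mul (c5 (M σ) _ _ _ _ _)

lemma cr {f : S → S → ℝ} (h : Continuous fun z : S × S => f z.1 z.2) (x : S) : Continuous fun y => f x y :=
  h.comp (Continuous.prodMk_right x)
lemma cΛ' (n : ℕ) (x : S) : Continuous fun y => Λ n x y := cr (cΛ n) x
lemma cL' (σ : ℝ) (n : ℕ) (x : S) : Continuous fun y => L σ n x y := cr (cL σ n) x
lemma cQ (σ : ℝ) (n : ℕ) (x : S) : Continuous fun y => Q σ n x y := continuous_finsetSum _ fun i _ => cL' σ i x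

lemma Λ_upd {n j : ℕ} (h : n < j) (x y : S) (c : F) : Λ n x (update y j c) = Λ n x y :=
  Finset.prod_congr rfl fun i hi => by
    have := Finset.mem_range.1 hi
    rw [update_of_ne (by omega), update_of_ne (by omega)]

lemma L_upd (σ : ℝ) {n j : ℕ} (h : n < j) (x y : S) (c : F) : L σ n x (update y j c) = L σ n x y := by
  cases n with
  | zero => simp only [L]; rw [update_of_ne (by omega)]
  | succ n => simp only [L]; rw [Λ_upd (by omega), update_of_ne (by omega), update_of_ne (by omega)]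

lemma Q_upd (σ : ℝ) {n j : ℕ} (h : n < j) (x y : S) (c : F) : Q σ n x (update y j c) = Q σ n x y :=
  Finset.sum_congr rfl fun i hi => L_upd σ (by have := Finset.mem_range.1 hi; omega) x y c

lemma orth (σ : ℝ) (n : ℕ) (x : S) {f : S → ℝ} (hf : Continuous f) (h : ∀ y c, f (update y (n + 1) c) = f y) :
    ∫ y, f y * L σ (n + 1) x y ∂π = 0 := by
  rw [upd (f := fun y => f y * L σ (n + 1) x y) (hf.mul (cL' σ _ x)) (n + 1)]
  simp [L, h, Λ_upd, ← Finset.mul_sum, M0]

lemma c0 (g : F → ℝ) : Continuous fun y : S => g (y 0) :=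
  (continuous_of_discreteTopology (f := g)).comp (continuous_apply 0)

lemma LL (g : F → ℝ) (n : ℕ) (x z : S) :
    ∫ y, g (y 0) * (Λ n x y * Λ n z y) ∂π = (1 / 16) ^ n * Λ n x z * ((∑ b, g b) / 64) := by
  induction n with
  | zero =>
    rw [upd (f := fun y => g (y 0) * (Λ 0 x y * Λ 0 z y)) ((c0 g).mul ((cΛ' _ x).mul (cΛ' _ z))) 0]
    simp [Λ]
  | succ n ih =>
    rw [upd (f := fun y => g (y 0) * (Λ (n + 1) x y * Λ (n + 1) z y)) ((c0 g).mul ((cΛ' _ x).mul (cΛ' _ z)))
      (n + 1)]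
    have e : ∀ x y, Λ (n + 1) x y = Λ n x y * K (x 0) (y 0) (x (n + 1)) (y (n + 1)) := fun x y =>
      Finset.prod_range_succ _ _
    have : ∀ y : S, (∑ c, g (update y (n + 1) c 0) * (Λ (n + 1) x (update y (n + 1) c)
        * Λ (n + 1) z (update y (n + 1) c))) / 64
        = K (x 0) (z 0) (x (n + 1)) (z (n + 1)) / 16 * (g (y 0) * (Λ n x y * Λ n z y)) := fun y => by
      simp only [e, Λ_upd (Nat.lt_succ_self n), update_self, update_of_ne (Nat.succ_ne_zero n).symm,
        mul_mul_mul_comm (Λ n x y) _ (Λ n z y), ← Finset.mul_sum, KK]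
      ring
    simp only [this]
    rw [integral_const_mul, ih, e]; ring

noncomputable def T (n : ℕ) (x z : S) : ℝ :=
  (1 / 16) ^ n * Λ n x z * nn (x 0) (x (n + 1)) (z 0) (z (n + 1)) / 32

lemma main (n : ℕ) (x z : S) : ∫ y, L 1 (n + 1) x y * L (-1) (n + 1) z y ∂π = T n x z - T (n + 1) x z := by
  rw [upd (f := fun y => L 1 (n + 1) x y * L (-1) (n + 1) z y) ((cL' _ _ x).mul (cL' _ _ z)) (n + 1)]
  have := LL (fun b => (∑ c, M 1 (x 0) (x (n + 1)) (x (n + 2)) b c * M (-1) (z 0) (z (n + 1)) (z (n + 2)) b c) / 64)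
    n x z
  rw [← Finset.sum_div, MM] at this
  have e : Λ (n + 1) x z = Λ n x z * K (x 0) (z 0) (x (n + 1)) (z (n + 1)) := Finset.prod_range_succ _ _
  rw [T, T, e]
  refine Eq.trans (integral_congr_ae (.of_forall fun y => ?_)) (this.trans (by ring))
  simp only [L, Λ_upd (Nat.lt_succ_self n), update_self, update_of_ne (Nat.succ_ne_zero n).symm,
    mul_mul_mul_comm (Λ n x y) _ (Λ n z y), ← Finset.mul_sum]
  ring

lemma QQ (n : ℕ) (x z : S) : ∫ y, Q 1 n x y * Q (-1) n z y ∂π = 1 - T n x z := by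
  induction n with
  | zero =>
    rw [upd (f := fun y => Q 1 0 x y * Q (-1) 0 z y) ((cQ _ _ x).mul (cQ _ _ z)) 0]
    simp [Q, L, L0, T, Λ]; ring
  | succ n ih =>
    have e : ∀ σ x y, Q σ (n + 1) x y = Q σ n x y + L σ (n + 1) x y := fun σ x y => Finset.sum_range_succ _ _
    have h1 := orth (-1) n z (cQ 1 n x) fun y c => Q_upd _ (Nat.lt_succ_self n) _ _ _
    have h2 := orth 1 n x (cQ (-1) n z) fun y c => Q_upd _ (Nat.lt_succ_self n) _ _ _
    have i1 := ci ((cQ 1 n x).mul (cQ (-1) n z))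
    have i2 := ci ((cQ 1 n x).mul (cL' (-1) (n + 1) z))
    have i3 := ci ((cQ (-1) n z).mul (cL' 1 (n + 1) x))
    have i4 := ci ((cL' 1 (n + 1) x).mul (cL' (-1) (n + 1) z))
    have : ∀ y, Q 1 (n + 1) x y * Q (-1) (n + 1) z y = (Q 1 n x y * Q (-1) n z y + Q 1 n x y * L (-1) (n + 1) z y)
        + (Q (-1) n z y * L 1 (n + 1) x y + L 1 (n + 1) x y * L (-1) (n + 1) z y) := fun y => by
      rw [e, e]; ring
    simp only [this]
    refine (integral_add (i1.add i2) (i3.add i4)).trans ?_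
    refine (congrArg₂ (· + ·) (integral_add i1 i2) (integral_add i3 i4)).trans ?_
    simp only [Pi.mul_apply, h1, h2, ih, main]; ring

lemma Q1 (σ : ℝ) (n : ℕ) (x : S) : ∫ y, Q σ n x y ∂π = 1 := by
  induction n with
  | zero =>
    rw [upd (f := fun y => Q σ 0 x y) (cQ _ _ x) 0]
    simp [Q, L, s_al]
  | succ n ih =>
    have e : ∀ y, Q σ (n + 1) x y = Q σ n x y + L σ (n + 1) x y := fun y => Finset.sum_range_succ _ _
    have h1 := orth σ n x (f := fun _ => 1) continuous_const fun _ _ => rfl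
    simp only [e, one_mul] at h1 ⊢
    rw [integral_add (ci (cQ _ _ _)) (ci (cL' _ _ _)), ih, h1, add_zero]

noncomputable def cc (a b : F) : ℝ := U a b + 3 / 4 * o a b

lemma U_bd (a b : F) : 0 ≤ U a b ∧ U a b ≤ 2 := by
  have := abs_le.1 (show |η a * η b| ≤ 1 by rw [abs_mul, η_abs, η_abs, mul_one])
  unfold U; split_ifs <;> constructor <;> linarith

lemma cc_bd (a b : F) : 0 ≤ cc a b ∧ cc a b ≤ 3 := by
  have := U_bd a b
  unfold cc o; split_ifs <;> constructor <;> linarith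

lemma cc_self (a : F) : cc a a = 0 := by simp [cc, U, o, η_sq]

lemma M_le {σ : ℝ} (hσ : |σ| = 1) (a c d b y : F) : |M σ a c d b y| ≤ cc a b / 2 := by
  by_cases h : a = b
  · subst h; simp [M, al, ga, U, o, η_sq, cc_self]
  have hK := K_le h c y
  by_cases h1 : a.1 = b.1
  · simp only [M, al, ga, cc, o, if_pos h1, zero_mul, zero_div, mul_zero, add_zero, abs_mul,
      abs_of_nonneg (U_bd a b).1]
    nlinarith [(U_bd a b).1]
  · refine (abs_add_le _ _).trans ?_
    simp only [al, ga, cc, o, U, if_neg h1, zero_add, abs_mul, abs_div, abs_neg, hσ, η_abs, φ_abs, abs_one]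
    norm_num; linarith

lemma Λ_le {x y : S} (h : x 0 ≠ y 0) (n : ℕ) : |Λ n x y| ≤ (1 / 2) ^ n := by
  rw [Λ, Finset.abs_prod]
  refine (Finset.prod_le_prod (fun _ _ => abs_nonneg _) fun i _ => K_le h _ _).trans (by simp)

lemma Λ_le1 (x y : S) (n : ℕ) : |Λ n x y| ≤ 1 := by
  rw [Λ, Finset.abs_prod]
  exact Finset.prod_le_one (fun _ _ => abs_nonneg _) fun i _ => K_le1 _ _ _ _

lemma L_le {σ : ℝ} (hσ : |σ| = 1) (n : ℕ) (x y : S) : |L σ (n + 1) x y| ≤ cc (x 0) (y 0) * (1 / 2) ^ (n + 1) := by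
  have := M_le hσ (x 0) (x (n + 1)) (x (n + 2)) (y 0) (y (n + 1))
  rw [L, abs_mul]
  by_cases h : x 0 = y 0
  · rw [h, cc_self] at this ⊢
    rw [le_antisymm this (by simp)]; simp
  · exact (mul_le_mul (Λ_le h n) this (abs_nonneg _) (by positivity)).trans_eq (by ring)

lemma L0_bd {σ : ℝ} (hσ : |σ| = 1) (x y : S) : cc (x 0) (y 0) ≤ L σ 0 x y ∧ L σ 0 x y ≤ 3 := by
  have := U_bd (x 0) (y 0)
  have h := abs_le.1 (show |σ * (η (y 0) * φ (x 0) (y 0).2.1 (x 1))| ≤ 1 by
    rw [abs_mul, abs_mul, hσ, η_abs, φ_abs]; simp)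
  by_cases h1 : (x 0).1 = (y 0).1
  · simp only [L, al, cc, o, if_pos h1]; constructor <;> linarith
  · simp only [L, al, cc, o, U, if_neg h1]; constructor <;> linarith

lemma L_bd {σ : ℝ} (hσ : |σ| = 1) (n : ℕ) (x y : S) : ‖L σ n x y‖ ≤ 3 * (1 / 2) ^ n := by
  have := cc_bd (x 0) (y 0)
  cases n with
  | zero => have := L0_bd hσ x y; rw [Real.norm_eq_abs, abs_le]; constructor <;> simp <;> linarith
  | succ n => exact (L_le hσ n x y).trans (by gcongr; exact this.2)

lemma sm : Summable fun n : ℕ => (3 : ℝ) * (1 / 2) ^ n := summable_geometric_two.mul_left 3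

lemma cP {σ : ℝ} (hσ : |σ| = 1) : Continuous fun z : S × S => P σ z.1 z.2 :=
  continuous_tsum (cL σ) sm fun n z => L_bd hσ n z.1 z.2

lemma tQ {σ : ℝ} (hσ : |σ| = 1) (x y : S) : Tendsto (fun N => Q σ N x y) atTop (𝓝 (P σ x y)) :=
  ((Summable.of_norm_bounded sm fun n => L_bd hσ n x y).hasSum.tendsto_sum_nat).comp (tendsto_add_atTop_nat 1)

lemma Q_bd {σ : ℝ} (hσ : |σ| = 1) (N : ℕ) (x y : S) : ‖Q σ N x y‖ ≤ 6 := by
  refine (norm_sum_le _ _).trans ((Finset.sum_le_sum fun n _ => L_bd hσ n x y).trans ?_)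
  rw [← Finset.mul_sum]
  linarith [sum_geometric_two_le (N + 1)]

lemma Q_ge {σ : ℝ} (hσ : |σ| = 1) (N : ℕ) (x y : S) : cc (x 0) (y 0) * (1 / 2) ^ N ≤ Q σ N x y := by
  induction N with
  | zero => simpa [Q] using (L0_bd hσ x y).1
  | succ n ih =>
    have e : Q σ (n + 1) x y = Q σ n x y + L σ (n + 1) x y := Finset.sum_range_succ _ _
    have := (abs_le.1 (L_le hσ n x y)).1
    rw [e, pow_succ] at *
    linarith

lemma P_ge {σ : ℝ} (hσ : |σ| = 1) (x y : S) : 0 ≤ P σ x y :=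
  ge_of_tendsto' (tQ hσ x y) fun N => (mul_nonneg (cc_bd _ _).1 (by positivity)).trans (Q_ge hσ N x y)

lemma P_zero (x y : S) (h : x 0 = y 0) : P 1 x y = 0 := by
  have : ∀ n, L 1 n x y = 0 := fun n => by
    cases n with
    | zero => simp [L, h, al, U, o, η_sq]
    | succ n => have := L_le abs_one n x y; rw [h, cc_self] at this; simpa using this
  simp [P, this]

lemma hm : |(-1 : ℝ)| = 1 := by simp

lemma P1 {σ : ℝ} (hσ : |σ| = 1) (x : S) : ∫ y, P σ x y ∂π = 1 := by
  have := tendsto_integral_of_dominated_convergence (μ := π) (fun _ => 6) (fun N => (ci (cQ σ N x)).1)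
    (integrable_const _) (fun N => .of_forall (Q_bd hσ N x)) (.of_forall (tQ hσ x))
  simp only [Q1] at this
  exact (tendsto_const_nhds_iff.1 this).symm

lemma PP (x z : S) : ∫ y, P 1 x y * P (-1) z y ∂π = 1 := by
  have := tendsto_integral_of_dominated_convergence (μ := π) (F := fun N y => Q 1 N x y * Q (-1) N z y)
    (fun _ => 6 * 6) (fun N => (ci ((cQ 1 N x).mul (cQ (-1) N z))).1) (integrable_const _)
    (fun N => .of_forall fun y => (norm_mul_le _ _).trans
      (mul_le_mul (Q_bd abs_one N x y) (Q_bd hm N z y) (norm_nonneg _) (by norm_num)))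
    (.of_forall fun y => (tQ abs_one x y).mul (tQ hm z y))
  simp only [QQ] at this
  have h : Tendsto (fun n => T n x z) atTop (𝓝 0) := by
    refine squeeze_zero_norm (a := fun n => (1 / 16 : ℝ) ^ n) (fun n => ?_)
      (tendsto_pow_atTop_nhds_zero_of_lt_one (by norm_num) (by norm_num))
    have h1 := mul_le_mul (Λ_le1 x z n) (nn_le (x 0) (x (n + 1)) (z 0) (z (n + 1))) (abs_nonneg _) zero_le_one
    rw [T, Real.norm_eq_abs, abs_div, mul_assoc, abs_mul, abs_mul, abs_of_pos (by positivity : (0:ℝ) < (1/16)^n),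
      mul_div_assoc]
    refine mul_le_of_le_one_right (by positivity) ?_
    norm_num; linarith
  simpa using tendsto_nhds_unique this (tendsto_const_nhds.sub h)

noncomputable def B (n : ℕ) (x y : S) : ℝ :=
  Λ n x y * (o (x 0) (y 0) * (η (y 0) * φ (x 0) (y 0).2.1 (x (n + 1)) + η (x 0) * φ (y 0) (x 0).2.1 (y (n + 1))) / 4)

lemma Λ_symm (n : ℕ) (x y : S) : Λ n y x = Λ n x y := Finset.prod_congr rfl fun _ _ => K_symm _ _ _ _
lemma o_symm (a b : F) : o b a = o a b := by simp only [o, eq_comm]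
lemma U_symm (a b : F) : U b a = U a b := by simp only [U, eq_comm, mul_comm]

lemma Q_symm (n : ℕ) (x y : S) : Q 1 n x y = Q (-1) n y x + B n x y := by
  induction n with
  | zero => simp [Q, L, B, Λ, al, o_symm (x 0), U_symm (x 0)]; ring
  | succ n ih =>
    have e : ∀ σ x y, Q σ (n + 1) x y = Q σ n x y + L σ (n + 1) x y := fun σ x y => Finset.sum_range_succ _ _
    have e' : Λ (n + 1) x y = Λ n x y * K (x 0) (y 0) (x (n + 1)) (y (n + 1)) := Finset.prod_range_succ _ _
    simp only [e, ih, L, B, e', M, al, ga, o_symm (x 0), U_symm (x 0), Λ_symm n x y, K_symm (y 0) (x 0)]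
    ring

lemma P_symm (x y : S) : P 1 x y = P (-1) y x := by
  have h : Tendsto (fun n => B n x y) atTop (𝓝 0) := by
    refine squeeze_zero_norm (a := fun n => (1 / 2 : ℝ) ^ n) (fun n => ?_)
      (tendsto_pow_atTop_nhds_zero_of_lt_one (by norm_num) (by norm_num))
    by_cases h1 : (x 0).1 = (y 0).1
    · simp [B, o, h1]
    rw [B, Real.norm_eq_abs, abs_mul, ← mul_one ((1 / 2 : ℝ) ^ n)]
    refine mul_le_mul (Λ_le (fun e => h1 (by rw [e])) n) ?_ (abs_nonneg _) (by positivity)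
    have := abs_add_le (η (y 0) * φ (x 0) (y 0).2.1 (x (n + 1))) (η (x 0) * φ (y 0) (x 0).2.1 (y (n + 1)))
    simp only [abs_mul, η_abs, φ_abs] at this
    rw [o, if_neg h1, one_mul, abs_div]
    norm_num; linarith
  have := tQ abs_one x y
  simp only [Q_symm] at this
  simpa using tendsto_nhds_unique this ((tQ hm y x).add h)

end Pool.Agent.H.MP_65c995_pr
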